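import Pool.Agent.TH326.SB9

/-!
# `s(A) = ω₀` for positive `C₀`-groups on ordered Hilbert spaces (MP_e5770a_an, Q1)

`H` is a nonzero real Hilbert space with a closed, normal, generating cone `P`; `E` is its
complexification `H ⊕ iH` (a complex Hilbert space with a real-linear `ι : H → E`,
`⟪ι x, ι y⟫ = ⟪x, y⟫` and `E = ι H + i ι H`).  `T` is a `C₀`-group on `E` whose operators `T t`
(`t ≥ 0`) are positive (in particular: all `T t`, `t ∈ ℝ`, may be positive).  Then the spectrum of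
the generator is nonempty and bounded above in real part, and
`t⁻¹ log ‖T t‖ → s(A) = sup Re σ(A)` as `t → ∞`.
-/

open Filter Topology Pool.Agent.TH326.SB

namespace Pool.Agent.Results.MP_e5770a_an.SpectralBoundEqGrowthBound

theorem result
    {H : Type*} [NormedAddCommGroup H] [InnerProductSpace ℝ H] [CompleteSpace H] [Nontrivial H]
    {E : Type*} [NormedAddCommGroup E] [InnerProductSpace ℂ E] [CompleteSpace E]
    -- `E` is the complexification of `H`
    (ι : H →ₗ[ℝ] E)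
    (hι : ∀ x y : H, inner ℂ (ι x) (ι y) = ((inner ℝ x y : ℝ) : ℂ))
    (hE : ∀ z : E, ∃ x y : H, z = ι x + Complex.I • ι y)
    -- `P` is a closed, normal, generating cone in `H`
    (P : Set H) (hPclosed : IsClosed P) (hPzero : (0 : H) ∈ P)
    (hPadd : ∀ x ∈ P, ∀ y ∈ P, x + y ∈ P) (hPsmul : ∀ r : ℝ, 0 ≤ r → ∀ x ∈ P, r • x ∈ P)
    (hPnormal : ∃ c : ℝ, 0 < c ∧ ∀ x y : H, x ∈ P → y - x ∈ P → ‖x‖ ≤ c * ‖y‖)
    (hPgen : ∀ x : H, ∃ p ∈ P, ∃ q ∈ P, x = p - q)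
    -- `T` is a `C₀`-group on `E`, positive for `t ≥ 0`
    (T : ℝ → E →L[ℂ] E) (hT : IsC0Group T)
    (hpos : ∀ t : ℝ, 0 ≤ t → ∀ x ∈ P, ∃ y ∈ P, T t (ι x) = ι y) :
    (genSpectrum T).Nonempty ∧ BddAbove (Complex.re '' genSpectrum T) ∧
      Tendsto (fun t : ℝ => Real.log ‖T t‖ / t) atTop
        (𝓝 (sSup (Complex.re '' genSpectrum T))) := by
  have hnorm : ∀ x : H, ‖ι x‖ = ‖x‖ := by
    intro x
    have h1 := hι x x
    rw [inner_self_eq_norm_sq_to_K, real_inner_self_eq_norm_sq] at h1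
    have h2 : ‖ι x‖ ^ 2 = ‖x‖ ^ 2 := by
      apply Complex.ofReal_injective
      rw [← h1]
      exact Complex.ofReal_pow _ _
    exact (pow_left_inj₀ (norm_nonneg _) (norm_nonneg _) two_ne_zero).1 h2
  have hiso : Isometry ι := AddMonoidHomClass.isometry_of_norm ι hnorm
  have hnt : Nontrivial E := by
    obtain ⟨x, hx⟩ := exists_ne (0 : H)
    refine ⟨⟨ι x, 0, fun h => hx ?_⟩⟩
    rw [← norm_eq_zero, ← hnorm, h, norm_zero]
  have hC : IsNGCone (ι '' P) :=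
    { closed := hiso.isClosedEmbedding.isClosedMap P hPclosed
      zero := ⟨0, hPzero, map_zero ι⟩
      add := by
        rintro _ ⟨x, hx, rfl⟩ _ ⟨y, hy, rfl⟩
        exact ⟨x + y, hPadd x hx y hy, map_add ι x y⟩
      smul := by
        rintro r hr _ ⟨x, hx, rfl⟩
        exact ⟨r • x, hPsmul r hr x hx, map_smul ι r x⟩
      normal := by
        obtain ⟨c, hc, hcn⟩ := hPnormal
        refine ⟨c, hc, ?_⟩
        rintro _ y ⟨x, hx, rfl⟩ ⟨w, hw, hwy⟩
        have hy : y = ι (x + w) := by rw [map_add, hwy]; abel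
        rw [hy, hnorm, hnorm]
        exact hcn x (x + w) hx (by rwa [add_sub_cancel_left])
      gen := by
        intro z
        obtain ⟨x, y, rfl⟩ := hE z
        obtain ⟨p₁, h1, p₂, h2, rfl⟩ := hPgen x
        obtain ⟨p₃, h3, p₄, h4, rfl⟩ := hPgen y
        exact ⟨ι p₁, ⟨p₁, h1, rfl⟩, ι p₂, ⟨p₂, h2, rfl⟩, ι p₃, ⟨p₃, h3, rfl⟩, ι p₄, ⟨p₄, h4, rfl⟩,
          by rw [map_sub, map_sub]⟩ }
  refine main hT hC ?_
  rintro t ht _ ⟨x, hx, rfl⟩
  obtain ⟨y, hy, hxy⟩ := hpos t ht x hx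
  exact ⟨y, hy, hxy.symm⟩

end Pool.Agent.Results.MP_e5770a_an.SpectralBoundEqGrowthBound
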